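import Pool.Agent.Helper49.KT.Defs
import Pool.Agent.Helper49.KT.Example5

/-!
# The integral image in K-theory depends on the proper flat model

For `X = Spec ℚ(i)` the images in `K'₁(X) ⊗ ℚ` of `K'₁` of the proper flat models `Spec ℤ[i]` and
`Spec ℤ[5i]` are different. The class that separates them is that of the double short exact
sequence of `ℤ[5i]`-modules `ℤ[i] ⇉ ℤ[i] ⇉ ℤ/5` given by the multiplications by `2 + i` and
`2 - i`; on the generic fibre its determinant is `(2 - i) / (2 + i)`, which is not a unit of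
`ℤ[i]`.
-/

namespace Pool.Agent.Results.MP_1f00cf_ag.ModelDependence

open CategoryTheory AlgebraicGeometry Pool.Agent.Helper49.KT

/-- The integral smooth proper scheme `X = Spec ℚ(i)` over `ℚ` has two proper flat models over
`ℤ`, namely `Spec ℤ[i]` and `Spec ℤ[5i]`, with different images in `K'₁(X) ⊗ ℚ`. -/
theorem result :
    ∃ (X : Scheme.{0}) (s : X ⟶ Spec (.of ℚ)) (m m' : Model s),
      IsIntegral X ∧ Smooth s ∧ IsProper s ∧
      Nonempty (X ≅ Spec (.of (FractionRing GaussianInt))) ∧
      Nonempty (m.total ≅ Spec (.of GaussianInt)) ∧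
      Nonempty (m'.total ≅ Spec (.of (Zsqrtd (-25)))) ∧
      m.image ≠ m'.image :=
  ⟨Spec (.of Fi), sFi, orderModel GaussianInt isLocL, orderModel (Zsqrtd (-25)) isLocO,
    inferInstance, inferInstance, inferInstance, ⟨Iso.refl _⟩, ⟨Iso.refl _⟩, ⟨Iso.refl _⟩,
    image_ne⟩

end Pool.Agent.Results.MP_1f00cf_ag.ModelDependence
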